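import Pool.Agent.PDN.Stmts

/-!
# PDN: LIN (linear algebra, ranks)
-/

set_option autoImplicit false

namespace Pool.Agent.PDN.H39

open Module

theorem finrank_const_le {F V : Type} [Field F] [Fintype V] (K : Submodule F (V → F))
    (h : ∀ x ∈ K, ∀ u v, x u = x v) : finrank F K ≤ 1 := by
  have h1 : K ≤ Submodule.span F {(1 : V → F)} := by
    intro x hx
    rw [Submodule.mem_span_singleton]
    rcases isEmpty_or_nonempty V with hV | ⟨⟨v₀⟩⟩
    · exact ⟨0, Subsingleton.elim _ _⟩
    · refine ⟨x v₀, ?_⟩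
      funext v
      rw [Pi.smul_apply, Pi.one_apply, smul_eq_mul, mul_one]
      exact h x hx v₀ v
  refine (Submodule.finrank_mono h1).trans ?_
  refine (finrank_span_le_card ({(1 : V → F)} : Set (V → F))).trans ?_
  simp

theorem lin_aux {F : Type} [Field F] {I V Φ : Type} [Fintype I] [Fintype V] [Fintype Φ]
    [DecidableEq I] [DecidableEq V] [DecidableEq Φ] (P : Matrix I V F) (Q : Matrix Φ I F)
    (hQP : Q * P = 0) (hP : ∀ x : V → F, P.mulVec x = 0 → ∀ u v, x u = x v)
    (hQ : ∀ y : Φ → F, Q.transpose.mulVec y = 0 → ∀ u v, y u = y v)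
    (hc : Fintype.card V + Fintype.card Φ = Fintype.card I + 2) (g : I → F)
    (hg : Q.mulVec g = 0) : ∃ x, P.mulVec x = g := by
  have k1 : finrank F (LinearMap.ker P.mulVecLin) ≤ 1 :=
    finrank_const_le _ fun x hx => hP x (by
      rw [LinearMap.mem_ker, Matrix.mulVecLin_apply] at hx
      exact hx)
  have k2 : finrank F (LinearMap.ker Q.transpose.mulVecLin) ≤ 1 :=
    finrank_const_le _ fun x hx => hQ x (by
      rw [LinearMap.mem_ker, Matrix.mulVecLin_apply] at hx
      exact hx)
  have r1 := LinearMap.finrank_range_add_finrank_ker P.mulVecLin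
  have r2 := LinearMap.finrank_range_add_finrank_ker Q.mulVecLin
  have r3 := LinearMap.finrank_range_add_finrank_ker Q.transpose.mulVecLin
  rw [Module.finrank_fintype_fun_eq_card] at r1 r2 r3
  have r4 : finrank F (LinearMap.range Q.transpose.mulVecLin) =
      finrank F (LinearMap.range Q.mulVecLin) := Matrix.rank_transpose Q
  have hle : LinearMap.range P.mulVecLin ≤ LinearMap.ker Q.mulVecLin := by
    rintro _ ⟨x, rfl⟩
    rw [LinearMap.mem_ker, Matrix.mulVecLin_apply, Matrix.mulVecLin_apply, Matrix.mulVec_mulVec,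
      hQP, Matrix.zero_mulVec]
  have heq : LinearMap.range P.mulVecLin = LinearMap.ker Q.mulVecLin :=
    Submodule.eq_of_le_of_finrank_le hle (by omega)
  have hg' : g ∈ LinearMap.range P.mulVecLin := by
    rw [heq, LinearMap.mem_ker, Matrix.mulVecLin_apply]
    exact hg
  obtain ⟨x, hx⟩ := hg'
  exact ⟨x, hx⟩

theorem lin : LinStmt := by
  intro F _ I V Φ _ _ _ _ _ _ P Q hQP hP hQ hc
  refine ⟨lin_aux P Q hQP hP hQ hc, ?_⟩
  refine lin_aux Q.transpose P.transpose ?_ hQ ?_ (by omega)
  · rw [← Matrix.transpose_mul, hQP, Matrix.transpose_zero]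
  · rw [Matrix.transpose_transpose]
    exact hP

end Pool.Agent.PDN.H39
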